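import Pool.Agent.H24.WT.Fur

/-!
# Local two-point correlations: the ergodic form on logarithmic windows (MP_c59857_nt)
-/

set_option autoImplicit false

open MeasureTheory ProbabilityTheory Filter Topology Finset
open scoped ENNReal

namespace Pool.Agent.H24.QP

open Pool.Agent.H89.MT (I1 X pt lavg QuasiGeneric z1)
open Pool.Agent.H83.W (S S_cont pt_succ)
open Pool.Agent.H24.EG
open Pool.Agent.H24.WT (QGW qgw_mp)

/-- the finite form: in the mean over the windows of length `L` from `Y` to `Z`, the largest of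
the correlations with the shifts `h ≤ H` is at most `1 - c` -/
def QPw (c : ℝ) (f : ℕ → ℝ) : Prop := ∀ H : ℕ, ∃ L₀ K : ℕ, ∀ L Y Z : ℕ, L₀ ≤ L → 1 ≤ Y → Y ≤ Z →
  K * Real.log L ≤ Real.log ((Z : ℝ) / Y) →
  Real.log Z ^ (24 / 25 : ℝ) ≤ Real.log ((Z : ℝ) / Y) →
  ∀ h : ℕ → ℕ, (∀ n, 1 ≤ h n ∧ h n ≤ H) →
    ∑ n ∈ Icc Y Z, 1 / (n : ℝ) * (|∑ m ∈ Icc 1 L, f (n + m) * f (n + m + h n)| / L) ≤
      (1 - c) * Real.log ((Z : ℝ) / Y)

/-- the correlation of a point with the shift `h`, mean over `1, …, L` -/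
noncomputable def cx (L h : ℕ) (x : X) : ℝ :=
  |∑ m ∈ Icc 1 L, (x (m : ℤ) : ℝ) * (x ((m + h : ℕ) : ℤ) : ℝ)| / L

theorem ne_Icc (H : ℕ) : (Icc 1 (H + 1)).Nonempty := ⟨1, mem_Icc.2 ⟨le_rfl, by omega⟩⟩

theorem ne_range (H : ℕ) : (range (H + 1)).Nonempty := ⟨0, mem_range.2 (by omega)⟩

/-- the largest of the correlations with the shifts up to `H + 1` -/
noncomputable def mx (L H : ℕ) (x : X) : ℝ :=
  (Icc 1 (H + 1)).sup' (ne_Icc H) fun h => cx L h x

theorem cx_cont (L h : ℕ) : Continuous (cx L h) := by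
  unfold cx
  refine Continuous.div_const (Continuous.abs ?_) _
  refine continuous_finsetSum _ fun m _ => ?_
  exact (continuous_subtype_val.comp (continuous_apply _)).mul
    (continuous_subtype_val.comp (continuous_apply _))

theorem cx_nonneg (L h : ℕ) (x : X) : 0 ≤ cx L h x := div_nonneg (abs_nonneg _) (Nat.cast_nonneg _)

theorem cx_le_one (L h : ℕ) (x : X) : cx L h x ≤ 1 := by
  unfold cx
  rcases Nat.eq_zero_or_pos L with h0 | h0
  · subst h0
    simp
  · rw [div_le_one (by exact_mod_cast h0)]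
    refine (abs_sum_le_sum_abs _ _).trans ?_
    calc ∑ m ∈ Icc 1 L, |(x (m : ℤ) : ℝ) * (x ((m + h : ℕ) : ℤ) : ℝ)|
        ≤ ∑ _m ∈ Icc 1 L, (1 : ℝ) := by
          refine sum_le_sum fun m _ => ?_
          rw [abs_mul]
          exact mul_le_one₀ (abs_x x _) (abs_nonneg _) (abs_x x _)
      _ = L := by simp

theorem mx_cont (L H : ℕ) : Continuous (mx L H) := by
  unfold mx
  exact Continuous.finset_sup'_apply _ fun h _ => cx_cont L h

theorem mx_nonneg (L H : ℕ) (x : X) : 0 ≤ mx L H x :=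
  (cx_nonneg L 1 x).trans (le_sup' (fun h => cx L h x) (mem_Icc.2 ⟨le_rfl, by omega⟩))

theorem mx_le_one (L H : ℕ) (x : X) : mx L H x ≤ 1 := sup'_le _ _ fun h _ => cx_le_one L h x

/-- the correlation of an invariant measure is at most the mean of the largest correlation -/
theorem corr_le {ν : Measure X} [IsProbabilityMeasure ν] (hS : MeasurePreserving S ν ν) {L : ℕ}
    (hL : 0 < L) {h H : ℕ} (h1 : 1 ≤ h) (h2 : h ≤ H + 1) :
    |∫ y, (y 0 : ℝ) * (y (h : ℤ) : ℝ) ∂ν| ≤ ∫ y, mx L H y ∂ν := by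
  have hc : ∀ m : ℤ, Measurable fun y : X => (y m : ℝ) := fun m =>
    measurable_subtype_coe.comp (measurable_pi_apply m)
  have hint : ∀ m : ℕ, Integrable (fun y : X => (y (m : ℤ) : ℝ) * (y ((m + h : ℕ) : ℤ) : ℝ)) ν := by
    intro m
    refine Integrable.of_bound (C := 1) ((hc _).mul (hc _)).aestronglyMeasurable
      (Eventually.of_forall fun y => ?_)
    rw [Real.norm_eq_abs, abs_mul]
    exact mul_le_one₀ (abs_x y _) (abs_nonneg _) (abs_x y _)
  have hsh : ∀ m : ℕ, ∫ y, (y (m : ℤ) : ℝ) * (y ((m + h : ℕ) : ℤ) : ℝ) ∂ν =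
      ∫ y, (y 0 : ℝ) * (y (h : ℤ) : ℝ) ∂ν := by
    intro m
    have hmp := hS.iterate m
    calc ∫ y, (y (m : ℤ) : ℝ) * (y ((m + h : ℕ) : ℤ) : ℝ) ∂ν
        = ∫ y, ((S^[m] y) 0 : ℝ) * ((S^[m] y) (h : ℤ) : ℝ) ∂ν := by
          refine integral_congr_ae (Eventually.of_forall fun y => ?_)
          simp only [iter_S, zero_add]
          congr 3
          push_cast
          ring
      _ = ∫ y, (y 0 : ℝ) * (y (h : ℤ) : ℝ) ∂(ν.map (S^[m])) := by
          rw [integral_map hmp.measurable.aemeasurable]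
          exact ((hc 0).mul (hc _)).aestronglyMeasurable
      _ = _ := by rw [hmp.map_eq]
  have hL0 : (0 : ℝ) < L := by exact_mod_cast hL
  have h3 : ∫ y, (y 0 : ℝ) * (y (h : ℤ) : ℝ) ∂ν =
      ∫ y, (∑ m ∈ Icc 1 L, (y (m : ℤ) : ℝ) * (y ((m + h : ℕ) : ℤ) : ℝ)) / L ∂ν := by
    rw [integral_div, integral_finsetSum _ fun m _ => hint m, sum_congr rfl fun m _ => hsh m,
      sum_const, Nat.card_Icc, Nat.add_sub_cancel, nsmul_eq_mul, mul_div_cancel_left₀ _ hL0.ne']
  rw [h3]
  refine (abs_integral_le_integral_abs).trans ?_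
  refine integral_mono_of_nonneg (Eventually.of_forall fun y => abs_nonneg _) ?_
    (Eventually.of_forall fun y => ?_)
  · refine Integrable.of_bound (C := 1) (mx_cont L H).aestronglyMeasurable
      (Eventually.of_forall fun y => ?_)
    rw [Real.norm_eq_abs, abs_of_nonneg (mx_nonneg L H y)]
    exact mx_le_one L H y
  · show |(∑ m ∈ Icc 1 L, (y (m : ℤ) : ℝ) * (y ((m + h : ℕ) : ℤ) : ℝ)) / L| ≤ mx L H y
    rw [abs_div, abs_of_pos hL0]
    exact le_sup' (fun h => cx L h y) (mem_Icc.2 ⟨h1, h2⟩)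

/-- the mean of the largest correlation, from the finite form -/
theorem int_mx_le {c : ℝ} (f : ℕ → ℝ) (hQ : QPw c f) (u : ℕ → I1)
    (hu : ∀ n, 0 < n → (u n : ℝ) = f n) (κ : Measure X) (hκ : QGW u κ) (H : ℕ) :
    ∃ L : ℕ, 0 < L ∧ ∫ x, mx L H x ∂κ ≤ 1 - c := by
  obtain ⟨L₀, K, h⟩ := hQ (H + 1)
  refine ⟨L₀ + 1, Nat.succ_pos _, ?_⟩
  obtain ⟨Y, Z, hYZ, hL, hF⟩ := hκ.2
  set L := L₀ + 1 with hLd
  have h1 := hF ⟨mx L H, mx_cont L H⟩
  simp only [ContinuousMap.coe_mk] at h1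
  refine le_of_tendsto h1 ?_
  filter_upwards [hL.eventually_ge_atTop (K * Real.log L), hL.eventually_gt_atTop 0] with k hk hk0
  obtain ⟨hY, hYX, hbig⟩ := hYZ k
  rw [div_le_iff₀ hk0]
  have h2 : ∀ n : ℕ, ∃ g : ℕ, (1 ≤ g ∧ g ≤ H + 1) ∧ mx L H (pt u n) = cx L g (pt u n) := by
    intro n
    obtain ⟨g, hg, he⟩ := exists_mem_eq_sup' (ne_Icc H) (fun h => cx L h (pt u n))
    exact ⟨g, mem_Icc.1 hg, he⟩
  choose g hg he using h2
  refine le_trans (le_of_eq ?_) (h L (Y k) (Z k) (Nat.le_succ _) hY hYX hk hbig g hg)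
  refine sum_congr rfl fun n _ => ?_
  rw [he n, one_div_mul_eq_div]
  congr 1
  unfold cx
  congr 2
  refine sum_congr rfl fun m hm => ?_
  rw [mem_Icc] at hm
  have e1 : ∀ t : ℕ, 1 ≤ t → ((pt u n (t : ℤ) : I1) : ℝ) = f (n + t) := by
    intro t ht
    rw [← hu (n + t) (by omega)]
    unfold pt
    rw [if_pos (by omega)]
    congr 2
  rw [e1 m hm.1, e1 (m + g n) (by omega), add_assoc]

section

variable (κ : Measure X) [IsProbabilityMeasure κ]

/-- the correlation of the component with the shift `h + 1` -/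
noncomputable def cc (h : ℕ) (x : X) : ℝ :=
  |∫ y, (y 0 : ℝ) * (y ((h : ℤ) + 1) : ℝ) ∂comp κ x|

theorem cc_meas (h : ℕ) : Measurable (cc κ h) := by
  have hc : ∀ m : ℤ, Measurable fun y : X => (y m : ℝ) := fun m =>
    measurable_subtype_coe.comp (measurable_pi_apply m)
  have h3 := StronglyMeasurable.integral_condExpKernel (μ := κ) (m := IS)
    ((hc 0).mul (hc ((h : ℤ) + 1))).stronglyMeasurable
  have h4 : Measurable fun x : X => ∫ y, (y 0 : ℝ) * (y ((h : ℤ) + 1) : ℝ) ∂comp κ x :=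
    (h3.mono IS_le).measurable
  exact measurable_norm.comp h4

theorem cc_nonneg (h : ℕ) (x : X) : 0 ≤ cc κ h x := abs_nonneg _

theorem cc_le_one (h : ℕ) (x : X) : cc κ h x ≤ 1 := by
  have hP : IsProbabilityMeasure (comp κ x) := by unfold comp; infer_instance
  unfold cc
  refine (abs_integral_le_integral_abs).trans ?_
  calc ∫ y, |(y 0 : ℝ) * (y ((h : ℤ) + 1) : ℝ)| ∂comp κ x ≤ ∫ _y, (1 : ℝ) ∂comp κ x := by
        refine integral_mono_of_nonneg (Eventually.of_forall fun y => abs_nonneg _)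
          (integrable_const _) (Eventually.of_forall fun y => ?_)
        show |(y 0 : ℝ) * (y ((h : ℤ) + 1) : ℝ)| ≤ 1
        rw [abs_mul]
        exact mul_le_one₀ (abs_x y _) (abs_nonneg _) (abs_x y _)
    _ = 1 := by simp

/-- the largest correlation of the component with a shift up to `H + 1` -/
noncomputable def cm (H : ℕ) (x : X) : ℝ :=
  (range (H + 1)).sup' (ne_range H) fun h => cc κ h x

/-- the supremum of the correlations of the component -/
noncomputable def cs (x : X) : ℝ := ⨆ h : ℕ, cc κ h x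

theorem cs_bdd (x : X) : BddAbove (Set.range fun h : ℕ => cc κ h x) :=
  ⟨1, by rintro _ ⟨h, rfl⟩; exact cc_le_one κ h x⟩

theorem cs_meas : Measurable (cs κ) := Measurable.iSup fun h => cc_meas κ h

theorem cs_nonneg (x : X) : 0 ≤ cs κ x := (cc_nonneg κ 0 x).trans (le_ciSup (cs_bdd κ x) 0)

theorem cs_le_one (x : X) : cs κ x ≤ 1 := ciSup_le fun h => cc_le_one κ h x

theorem cm_meas (H : ℕ) : Measurable (cm κ H) := by
  have h1 : cm κ H = (range (H + 1)).sup' (ne_range H) (cc κ) := by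
    funext x
    exact (Finset.sup'_apply (ne_range H) (cc κ) x).symm
  rw [h1]
  exact Finset.measurable_sup' _ fun h _ => cc_meas κ h

theorem cm_nonneg (H : ℕ) (x : X) : 0 ≤ cm κ H x :=
  (cc_nonneg κ 0 x).trans (le_sup' (fun h => cc κ h x) (mem_range.2 (by omega)))

theorem cm_le_one (H : ℕ) (x : X) : cm κ H x ≤ 1 := sup'_le _ _ fun h _ => cc_le_one κ h x

theorem cm_tendsto (x : X) : Tendsto (fun H => cm κ H x) atTop (𝓝 (cs κ x)) := by
  refine tendsto_order.2 ⟨fun a ha => ?_, fun a ha => ?_⟩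
  · obtain ⟨h, hh⟩ := exists_lt_of_lt_ciSup ha
    filter_upwards [eventually_ge_atTop h] with H hH
    exact lt_of_lt_of_le hh (le_sup' (fun h => cc κ h x) (mem_range.2 (by omega)))
  · exact Eventually.of_forall fun H => lt_of_le_of_lt
      (sup'_le _ _ fun h _ => le_ciSup (cs_bdd κ x) h) ha

end

/-- **The finite form gives the ergodic form**: the mean over the components of the supremum of
the absolute values of the correlations is at most `1 - c` -/
theorem fur_of {c : ℝ} (f : ℕ → ℝ) (hQ : QPw c f) (u : ℕ → I1)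
    (hu : ∀ n, 0 < n → (u n : ℝ) = f n)
    (κ : Measure X) [IsProbabilityMeasure κ] (hκ : QGW u κ) :
    ∃ G : X → ℝ, Measurable G ∧ (∀ x, 0 ≤ G x ∧ G x ≤ 1) ∧ ∫ x, G x ∂κ ≤ 1 - c ∧
      ∀ x, ∀ h : ℕ, |∫ y, (y 0 : ℝ) * (y ((h : ℤ) + 1) : ℝ) ∂comp κ x| ≤ G x := by
  refine ⟨cs κ, cs_meas κ, fun x => ⟨cs_nonneg κ x, cs_le_one κ x⟩, ?_,
    fun x h => le_ciSup (cs_bdd κ x) h⟩
  have hlim : Tendsto (fun H : ℕ => ∫ x, cm κ H x ∂κ) atTop (𝓝 (∫ x, cs κ x ∂κ)) := by
    refine tendsto_integral_of_dominated_convergence (fun _ => 1) ?_ (integrable_const _) ?_ ?_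
    · exact fun H => (cm_meas κ H).aestronglyMeasurable
    · intro H
      refine Eventually.of_forall fun x => ?_
      rw [Real.norm_eq_abs, abs_of_nonneg (cm_nonneg κ H x)]
      exact cm_le_one κ H x
    · exact Eventually.of_forall fun x => cm_tendsto κ x
  refine le_of_tendsto' hlim fun H => ?_
  obtain ⟨L, hL, hb⟩ := int_mx_le f hQ u hu κ hκ H
  refine le_trans ?_ hb
  have hI : Integrable (mx L H) κ := by
    refine Integrable.of_bound (C := 1) (mx_cont L H).aestronglyMeasurable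
      (Eventually.of_forall fun y => ?_)
    rw [Real.norm_eq_abs, abs_of_nonneg (mx_nonneg L H y)]
    exact mx_le_one L H y
  have h4 : ∫ x, (∫ y, mx L H y ∂comp κ x) ∂κ = ∫ x, mx L H x ∂κ := by
    have h3 := condExp_ae_eq_integral_condExpKernel (μ := κ) IS_le hI
    rw [← integral_condExp (μ := κ) (f := mx L H) IS_le]
    exact (integral_congr_ae h3).symm
  rw [← h4]
  have hm : Measurable fun x => ∫ y, mx L H y ∂comp κ x := by
    have h3 := StronglyMeasurable.integral_condExpKernel (μ := κ) (m := IS)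
      (mx_cont L H).measurable.stronglyMeasurable
    exact (h3.mono IS_le).measurable
  have hP : ∀ x, IsProbabilityMeasure (comp κ x) := fun x => by unfold comp; infer_instance
  refine integral_mono_ae ?_ ?_ ?_
  · refine Integrable.of_bound (C := 1) (cm_meas κ H).aestronglyMeasurable
      (Eventually.of_forall fun x => ?_)
    rw [Real.norm_eq_abs, abs_of_nonneg (cm_nonneg κ H x)]
    exact cm_le_one κ H x
  · refine Integrable.of_bound (C := 1) hm.aestronglyMeasurable
      (Eventually.of_forall fun x => ?_)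
    rw [Real.norm_eq_abs, abs_of_nonneg (integral_nonneg fun y => mx_nonneg L H y)]
    have := hP x
    calc ∫ y, mx L H y ∂comp κ x ≤ ∫ _y, (1 : ℝ) ∂comp κ x := by
          refine integral_mono_of_nonneg (Eventually.of_forall fun y => mx_nonneg _ _ y)
            (integrable_const _) (Eventually.of_forall fun y => mx_le_one _ _ y)
      _ = 1 := by simp
  · filter_upwards [comp_mp κ (qgw_mp hκ)] with x hx
    have := hP x
    refine sup'_le _ _ fun h hh => ?_
    rw [mem_range] at hh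
    have h5 := corr_le (ν := comp κ x) hx hL (h := h + 1) (H := H) (by omega) (by omega)
    unfold cc
    push_cast at h5
    exact h5

end Pool.Agent.H24.QP
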