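import Pool.Agent.H24.QP.Lin
import Pool.Agent.H24.QP.Fur
import Pool.Agent.H87.QP.Targets

/-!
# Local correlations and linear relations: plain forms (MP_c59857_nt)
-/

set_option autoImplicit false

namespace Pool.Agent.H24.QP

open Finset Pool.Agent.H6.N4D Pool.Agent.H28.NW Pool.Agent.H24.WT Pool.Agent.H83.TR

/-- LI. No linear relation between the shifts, for functions with the properties of Liouville's
function: absolute constants `c` and `K`, all windows `X`. -/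
def W_LI : Prop := ∃ (c : ℝ) (K : ℕ), 0 < c ∧ ∀ H : ℕ, ∃ L₀ : ℕ, ∀ (X : Wn) (L : ℕ)
  (lam : ℕ → ℝ) (a : ℕ → ℕ → ℂ), L₀ ≤ L → K * Real.log L ≤ X.L → Lio lam →
  (∀ n, ∃ h ≤ H, 1 ≤ ‖a n h‖) →
  c * X.L < wlg X (fun n => (∑ m ∈ Icc 1 L,
    ‖∑ h ∈ range (H + 1), a n h * (lam (n + m + h) : ℂ)‖ ^ 2) / L)

/-- plain form of the gap for the local correlations -/
theorem qps_plain (hQ : Pool.Agent.H87.QP.T_QPS) : ∃ c : ℝ, 0 < c ∧ ∃ K : ℕ, ∀ H : ℕ, ∃ L₀ : ℕ,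
    ∀ L Y N : ℕ, L₀ ≤ L → 1 ≤ Y → Y ≤ N → K * Real.log L ≤ Real.log ((N : ℝ) / Y) →
      Real.log N ^ (24 / 25 : ℝ) ≤ Real.log ((N : ℝ) / Y) →
      ∀ h : ℕ → ℕ, (∀ n, 1 ≤ h n ∧ h n ≤ H) →
        ∑ n ∈ Icc Y N, 1 / (n : ℝ) * (|∑ m ∈ Icc 1 L, lioR (n + m) * lioR (n + m + h n)| / L) ≤
          (1 - c) * Real.log ((N : ℝ) / Y) := by
  obtain ⟨c, K, hc, h⟩ := hQ
  refine ⟨c, hc, K, fun H => ?_⟩
  obtain ⟨L₀, h⟩ := h H
  refine ⟨L₀ + 1, fun L Y N hL hY hYN hK hbig g hg => ?_⟩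
  have h1 := h (wn Y N hY hYN hbig) L lioR g (by omega)
    (by rw [LL_eq hY hYN] at hK; exact hK) lio_lioR hg
  have hL0 : (0 : ℝ) < L := by exact_mod_cast (by omega : 0 < L)
  have e1 : (wn Y N hY hYN hbig).L = Real.log ((N : ℝ) / Y) := (LL_eq hY hYN).symm
  rw [e1] at h1
  have e2 : ∑ n ∈ Icc Y N, 1 / (n : ℝ) *
      (|∑ m ∈ Icc 1 L, lioR (n + m) * lioR (n + m + g n)| / L) =
      (wlg (wn Y N hY hYN hbig) (fun n => |∑ m ∈ Icc 1 L, lioR (n + m) *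
        lioR (n + m + g n)|)) / L := by
    unfold wlg
    rw [sum_div]
    refine sum_congr rfl fun n _ => ?_
    ring
  rw [e2, div_le_iff₀ hL0]
  refine h1.trans (le_of_eq ?_)
  ring

/-- plain form of the absence of linear relations -/
theorem li_plain (hQ : W_LI) : ∃ c : ℝ, 0 < c ∧ ∃ K : ℕ, ∀ H : ℕ, ∃ L₀ : ℕ,
    ∀ L Y N : ℕ, L₀ ≤ L → 1 ≤ Y → Y ≤ N → K * Real.log L ≤ Real.log ((N : ℝ) / Y) →
      Real.log N ^ (24 / 25 : ℝ) ≤ Real.log ((N : ℝ) / Y) →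
      ∀ a : ℕ → ℕ → ℂ, (∀ n, ∃ h ≤ H, 1 ≤ ‖a n h‖) →
        c * Real.log ((N : ℝ) / Y) < ∑ n ∈ Icc Y N, 1 / (n : ℝ) * ((∑ m ∈ Icc 1 L,
          ‖∑ h ∈ range (H + 1), a n h * (lioR (n + m + h) : ℂ)‖ ^ 2) / L) := by
  obtain ⟨c, K, hc, h⟩ := hQ
  refine ⟨c, hc, K, fun H => ?_⟩
  obtain ⟨L₀, h⟩ := h H
  refine ⟨L₀, fun L Y N hL hY hYN hK hbig a ha => ?_⟩
  have h1 := h (wn Y N hY hYN hbig) L lioR a hL
    (by rw [LL_eq hY hYN] at hK; exact hK) lio_lioR ha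
  have e1 : (wn Y N hY hYN hbig).L = Real.log ((N : ℝ) / Y) := (LL_eq hY hYN).symm
  rw [e1] at h1
  refine lt_of_lt_of_le h1 (le_of_eq ?_)
  unfold wlg
  refine sum_congr rfl fun n _ => ?_
  rw [one_div_mul_eq_div]

end Pool.Agent.H24.QP
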